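import Pool.Agent.SZT.StmtsB

/-! Squad SZT, row SQR: the square root of an integral polynomial as a power series. -/

set_option autoImplicit false

noncomputable section

open Polynomial

namespace Pool.Agent.SZT.H94

open Pool.Agent.SZT Pool.Agent.SZT.B

/-- the coefficients of the square root -/
def sqc {L : Type} [NormedField L] (h : L[X]) (s₀ : L) : ℕ → L
  | 0 => s₀
  | k + 1 => (h.coeff (k + 1) - ∑ i : Fin k, sqc h s₀ (i.1 + 1) * sqc h s₀ (k - i.1)) / (2 * s₀)
  decreasing_by
    all_goals
      have := i.2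
      omega

theorem sqr : PmuStmt → SqrStmt := by
  intro hpmu L _ _ _ h s₀ h2 hint hs hs1
  have hs0 : s₀ ≠ 0 := by
    intro h0
    rw [h0, norm_zero] at hs1
    exact zero_ne_one hs1
  have h20 : (2 : L) ≠ 0 := by
    intro h0
    rw [h0, norm_zero] at h2
    exact zero_ne_one h2
  have hnorm : ∀ k, ‖sqc h s₀ k‖ ≤ 1 := by
    intro k
    induction k using Nat.strong_induction_on with
    | _ k ih =>
      cases k with
      | zero => rw [sqc, hs1]
      | succ k =>
        rw [sqc, norm_div, norm_mul, h2, hs1, one_mul, div_one]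
        rw [sub_eq_add_neg]
        refine (IsUltrametricDist.norm_add_le_max _ _).trans (max_le (hint _) ?_)
        rw [norm_neg]
        refine IsUltrametricDist.norm_sum_le_of_forall_le_of_nonneg zero_le_one fun i _ => ?_
        rw [norm_mul]
        have := i.2
        exact mul_le_one₀ (ih _ (by omega)) (norm_nonneg _) (ih _ (by omega))
  have hcau : ∀ k, ∑ i ∈ Finset.range (k + 1), sqc h s₀ i * sqc h s₀ (k - i) = h.coeff k := by
    intro k
    cases k with
    | zero =>
      simp only [zero_add, Finset.sum_range_one, Nat.sub_zero]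
      rw [sqc, ← hs, sq]
    | succ k =>
      rw [Finset.sum_range_succ, Finset.sum_range_succ']
      have h3 : ∀ i ∈ Finset.range k, sqc h s₀ (i + 1) * sqc h s₀ (k + 1 - (i + 1))
          = sqc h s₀ (i + 1) * sqc h s₀ (k - i) := by
        intro i _
        rw [Nat.add_sub_add_right]
      rw [Finset.sum_congr rfl h3, Nat.sub_self, Nat.sub_zero]
      have h4 : sqc h s₀ (k + 1) * (2 * s₀)
          = h.coeff (k + 1) - ∑ i : Fin k, sqc h s₀ (i.1 + 1) * sqc h s₀ (k - i.1) := by
        conv_lhs => rw [sqc]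
        exact div_mul_cancel₀ _ (mul_ne_zero h20 hs0)
      rw [Fin.sum_univ_eq_sum_range (fun i => sqc h s₀ (i + 1) * sqc h s₀ (k - i)) k] at h4
      have h5 : sqc h s₀ 0 = s₀ := by rw [sqc]
      rw [h5]
      linear_combination h4
  refine ⟨sqc h s₀, hnorm, fun z hz => ?_⟩
  have h6 := (hpmu L).2.1 (sqc h s₀) (sqc h s₀) z hnorm hnorm hz
  have h7 := (hpmu L).2.2 h z
  rw [sq, ← h6, ← h7]
  congr 1
  funext k
  exact hcau k

end Pool.Agent.SZT.H94
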